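import Pool.Agent.N642.PR.Core

/-!
A positive polarized partition relation at singular cardinals: the cardinal arithmetic.
-/

set_option autoImplicit false

open Cardinal Set

namespace Pool.Agent.N642.PR

/-- the polarized partition relation `(κ, κ⁺) → (κ, κ)` for two colours -/
def PolRel (κ : Cardinal.{0}) : Prop :=
  ∀ (X Y : Type) (c : X → Y → Bool), #X = κ → #Y = Order.succ κ →
    ∃ (A : Set X) (B : Set Y) (e : Bool), #A = κ ∧ #B = κ ∧ ∀ x ∈ A, ∀ y ∈ B, c x y = e

section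

variable {κ : Cardinal.{0}}

lemma sum_lt (hκ : ℵ₀ ≤ κ) {Z : Type} (f : Z → Cardinal.{0}) (hZ : #Z < κ.ord.cof) (hf : ∀ z, f z < κ) :
    Cardinal.sum f < κ :=
  (sum_le_mk_mul_iSup f).trans_lt (mul_lt_of_lt hκ (hZ.trans_le (Ordinal.cof_ord_le _))
    (iSup_lt_of_lt_cof_ord hZ hf))

lemma exists_index : ∃ (I : Type) (_ : LinearOrder I) (_ : WellFoundedLT I),
    #I = κ.ord.cof ∧ (∀ i : I, #(Iio i) < κ.ord.cof) ∧
    ∃ f : I → Cardinal.{0}, (∀ i, f i < κ) ∧ ∀ θ < κ, ∃ i, θ ≤ f i := by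
  obtain ⟨s, hs, hs'⟩ := Ordinal.exists_ord_cof_eq κ.ord.ToType
  rw [Ordinal.cof_toType] at hs'
  refine ⟨s, inferInstance, inferInstance, ?_, ?_, ?_⟩
  · have h1 := congrArg Ordinal.card hs'
    rwa [Ordinal.card_type, Cardinal.card_ord] at h1
  · intro i
    have h1 : Ordinal.typein (α := s) (· < ·) i < Ordinal.type (α := s) (· < ·) := Ordinal.typein_lt_type _ _
    rw [hs'] at h1
    have h2 := Cardinal.lt_ord.mp h1
    rwa [Ordinal.card_typein] at h2
  · refine ⟨fun i => #(Iio (i : κ.ord.ToType)), ?_, ?_⟩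
    · intro i
      have h1 : Ordinal.typein (α := κ.ord.ToType) (· < ·) (i : κ.ord.ToType) <
        Ordinal.type (α := κ.ord.ToType) (· < ·) := Ordinal.typein_lt_type _ _
      rw [Ordinal.type_toType] at h1
      have h2 := Cardinal.lt_ord.mp h1
      rwa [Ordinal.card_typein] at h2
    · intro θ hθ
      have h1 : θ.ord < Ordinal.type (α := κ.ord.ToType) (· < ·) := by
        rw [Ordinal.type_toType]
        exact Cardinal.ord_lt_ord.mpr hθ
      obtain ⟨y, hy, hxy⟩ := hs (Ordinal.enum (α := κ.ord.ToType) (· < ·) ⟨θ.ord, h1⟩)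
      refine ⟨⟨y, hy⟩, ?_⟩
      have h2 : θ = #(Iio (Ordinal.enum (α := κ.ord.ToType) (· < ·) ⟨θ.ord, h1⟩)) := by
        have h3 := Ordinal.card_typein (r := ((· < ·) : κ.ord.ToType → κ.ord.ToType → Prop))
          (Ordinal.enum (α := κ.ord.ToType) (· < ·) ⟨θ.ord, h1⟩)
        rw [Ordinal.typein_enum, Cardinal.card_ord] at h3
        exact h3
      rw [h2]
      exact mk_le_mk_of_subset fun z hz => lt_of_lt_of_le hz hxy

/-- the general theorem -/
theorem polRel_of_closedSplitting (hsl : κ.IsStrongLimit) (hsing : κ.ord.cof < κ)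
    (hH : ∀ l < κ, ∃ (S : Type) (D : Set (Set S)), #S < κ ∧ ClosedSplitting l D) : PolRel κ := by
  intro X Y c hX hY
  have hκ : ℵ₀ ≤ κ := hsl.aleph0_le
  obtain ⟨I, _, _, hIc, hIio, f, hf, hfc⟩ := exists_index (κ := κ)
  have hcof : ℵ₀ ≤ κ.ord.cof := Ordinal.aleph0_le_cof_iff.mpr (Ordinal.one_lt_cof_iff.mpr (Cardinal.isSuccLimit_ord hκ))
  have hIlt : #I < κ := by rw [hIc]; exact hsing
  have hI0 : ℵ₀ ≤ #I := by rw [hIc]; exact hcof
  have : Nonempty I := by
    rw [← mk_ne_zero_iff]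
    exact (aleph0_pos.trans_le hI0).ne'
  have hIic : ∀ i : I, #(Iic i) < κ.ord.cof := by
    intro i
    have h1 : Iic i = insert i (Iio i) := by
      ext x
      simp [le_iff_lt_or_eq, or_comm]
    rw [h1]
    exact mk_insert_le.trans_lt (add_lt_of_lt hcof (hIio i) (one_lt_aleph0.trans_le hcof))
  have : NoMaxOrder I := by
    refine ⟨fun i => ?_⟩
    by_contra hc
    push Not at hc
    have h1 : (univ : Set I) = Iic i := by
      ext x
      simp [hc x]
    have h2 := hIic i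
    rw [← h1, mk_univ, hIc] at h2
    exact lt_irrefl _ h2
  -- the sizes
  let K : I → Cardinal.{0} := fun j => Order.succ (#I + Cardinal.sum (fun i : Iic j => f i))
  have hK : ∀ j, K j < κ := by
    intro j
    refine hsl.isSuccLimit.succ_lt ?_
    exact add_lt_of_lt hκ hIlt (sum_lt hκ _ (hIic j) fun i => hf i)
  let L : I → Cardinal.{0} := fun i => Cardinal.sum (fun j : Iio i => K j) + 1
  have hL : ∀ i, L i < κ := fun i =>
    add_lt_of_lt hκ (sum_lt hκ _ (hIio i) fun j => hK j) (one_lt_aleph0.trans_le hκ)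
  choose S D hS hD using fun i => hH (L i) (hL i)
  -- the injection
  have hSX : #(Σ i, S i) ≤ #X := by
    rw [hX, Cardinal.mk_sigma]
    calc Cardinal.sum (fun i => #(S i)) ≤ Cardinal.sum (fun _ : I => κ) :=
          Cardinal.sum_le_sum _ _ fun i => (hS i).le
      _ = #I * κ := by rw [Cardinal.sum_const']
      _ ≤ κ * κ := mul_le_mul_left hIlt.le κ
      _ = κ := mul_eq_self hκ
  obtain ⟨g⟩ := hSX
  -- the well order
  have hZ : ∀ j, ∃ Z : Set κ.ord.ToType, #Z = K j := by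
    intro j
    refine le_mk_iff_exists_set.mp ?_
    rw [mk_ord_toType]
    exact (hK j).le
  choose Z hZ using hZ
  let W : Type := {p : I ×ₗ κ.ord.ToType // (ofLex p).2 ∈ Z (ofLex p).1}
  let jw : W → I := fun w => (ofLex w.1).1
  have hWκ : #W ≤ κ := by
    have h1 : #W ≤ #(I × κ.ord.ToType) := mk_subtype_le _
    refine h1.trans ?_
    rw [mk_prod, lift_id, lift_id, mk_ord_toType]
    exact (mul_le_mul_left hIlt.le κ).trans (mul_eq_self hκ).le
  have hKW : ∀ j, K j ≤ #{w | jw w = j} := by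
    intro j
    rw [← hZ j]
    refine Cardinal.mk_le_of_injective (f := fun z : Z j =>
      (⟨⟨toLex (j, z.1), z.2⟩, rfl⟩ : {w : W | jw w = j})) ?_
    intro z z' h
    have h1 := congrArg (fun x : {w : W | jw w = j} => (ofLex x.1.1).2) h
    exact Subtype.ext h1
  have hWi : ∀ i, #{w | jw w < i} + 1 ≤ L i := by
    intro i
    show _ ≤ Cardinal.sum (fun j : Iio i => K j) + 1
    gcongr
    have h1 : Cardinal.sum (fun j : Iio i => K j) = #(Σ j : Iio i, Z j) := by
      rw [mk_sigma]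
      congr 1
      funext j
      rw [hZ]
    rw [h1]
    refine Cardinal.mk_le_of_injective (f := fun w : {w : W | jw w < i} =>
      (⟨⟨jw w.1, w.2⟩, ⟨(ofLex w.1.1).2, w.1.2⟩⟩ : Σ j : Iio i, Z j)) ?_
    rintro ⟨⟨w, hw⟩, hwi⟩ ⟨⟨w', hw'⟩, hwi'⟩ h
    have h2 := congrArg (fun s : Σ j : Iio i, Z j => ((s.1 : I), (s.2 : κ.ord.ToType))) h
    apply Subtype.ext
    apply Subtype.ext
    exact ofLex.injective h2
  have h2κ : ∀ x < κ, (2 : Cardinal.{0}) ^ x ≤ κ := fun x hx => (hsl.isStrongPrelimit hx).le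
  obtain ⟨A, B, e, hA, hB, hAB⟩ := main_abs (κ := κ) (c := fun i x y => c (g ⟨i, x⟩) y) (D := D) (L := L)
    (jw := jw) hκ hIlt.le (h2κ _ hIlt) (by rw [hY]; exact Order.lt_succ κ) hD
    (by
      intro j
      apply h2κ
      rw [mk_sigma]
      exact sum_lt hκ _ (hIio j) fun i => hS i)
    hWi hWκ K hKW
    (by
      intro j
      exact hI0.trans ((self_le_add_right _ _).trans (Order.le_succ _)))
    (by
      intro j
      have h1 : ℵ₀ ≤ #I + Cardinal.sum (fun i : Iic j => f i) := hI0.trans (self_le_add_right _ _)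
      exact ((self_le_add_right _ _).trans_lt (Order.lt_succ _)).trans_le (isRegular_succ h1).2)
    (by
      intro θ hθ
      obtain ⟨a, ha⟩ := hfc θ hθ
      refine ⟨a, fun i hi => ?_⟩
      have h1 : f a ≤ K a := by
        refine le_trans ?_ (Order.le_succ _)
        refine le_trans ?_ (self_le_add_left _ _)
        exact Cardinal.le_sum (fun i : Iic a => f i) ⟨a, le_refl a⟩
      have h2 : K a ≤ L i := by
        refine le_trans ?_ (self_le_add_right _ _)
        exact Cardinal.le_sum (fun j : Iio i => K j) ⟨a, hi⟩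
      exact ha.trans (h1.trans h2))
    (by
      intro θ hθ
      obtain ⟨a, ha⟩ := hfc θ hθ
      refine ⟨a, fun i hi => ha.trans ?_⟩
      refine le_trans ?_ (Order.le_succ _)
      refine le_trans ?_ (self_le_add_left _ _)
      exact Cardinal.le_sum (fun j : Iic i => f j) ⟨a, hi.le⟩)
  have hlim : ∀ x : Cardinal.{0}, (∀ θ < κ, θ ≤ x) → κ ≤ x := by
    intro x hx
    by_contra hc
    push Not at hc
    have h1 := hx _ (hsl.isSuccLimit.succ_lt hc)
    exact absurd h1 (not_le.mpr (Order.lt_succ x))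
  obtain ⟨B', hB', hBc⟩ := le_mk_iff_exists_subset.mp (hlim _ hB)
  refine ⟨g '' A, B', e, ?_, hBc, ?_⟩
  · apply le_antisymm
    · rw [← hX]
      exact mk_set_le _
    · rw [mk_image_eq g.injective]
      exact hlim _ hA
  · rintro x ⟨⟨i, z⟩, hz, rfl⟩ y hy
    exact hAB _ hz y (hB' hy)

/-- a measurable cardinal: `θ > ℵ₀` carries a nonprincipal ultrafilter closed under the intersections of fewer
than `θ` sets -/
def Measurable' (θ : Cardinal.{0}) : Prop :=
  ℵ₀ < θ ∧ ∃ (S : Type) (U : Ultrafilter S), #S = θ ∧ (∀ x, ({x} : Set S) ∉ U) ∧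
    ∀ C : Set (Set S), #C < θ → (∀ s ∈ C, s ∈ U) → ⋂₀ C ∈ U

lemma closedSplitting_of_measurable {θ l : Cardinal.{0}} (hl : l < θ) (hθ : Measurable' θ) :
    ∃ (S : Type) (D : Set (Set S)), #S = θ ∧ ClosedSplitting l D := by
  obtain ⟨_, S, U, hS, hU, hC⟩ := hθ
  refine ⟨S, {s | s ∈ U}, hS, ?_, ?_, ?_⟩
  · intro s hs
    by_contra hc
    push Not at hc
    have h1 : ⋂₀ ((fun x : S => ({x}ᶜ : Set S)) '' s) ∈ U := by
      refine hC _ (mk_image_le.trans_lt (hc.trans hl)) ?_
      rintro _ ⟨x, _, rfl⟩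
      exact Ultrafilter.compl_mem_iff_notMem.mpr (hU x)
    have h2 : sᶜ ∈ U := by
      refine Filter.mem_of_superset h1 ?_
      intro y hy hys
      exact hy {y}ᶜ ⟨y, hys, rfl⟩ rfl
    exact Ultrafilter.compl_mem_iff_notMem.mp h2 hs
  · intro s hs t
    rcases U.mem_or_compl_mem t with h | h
    · exact Or.inl ⟨s ∩ t, Filter.inter_mem hs h, le_rfl⟩
    · exact Or.inr ⟨s \ t, Filter.inter_mem hs h, le_rfl⟩
  · intro C hCD _ hCl
    exact ⟨⋂₀ C, hC C (hCl.trans_lt hl) hCD, fun t ht => sInter_subset_of_mem ht⟩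

/-- singular strong limits of measurable cardinals -/
theorem polRel_of_measurable (hsl : κ.IsStrongLimit) (hsing : κ.ord.cof < κ)
    (hM : ∀ l < κ, ∃ θ, l < θ ∧ θ < κ ∧ Measurable' θ) : PolRel κ := by
  refine polRel_of_closedSplitting hsl hsing fun l hl => ?_
  obtain ⟨θ, h1, h2, h3⟩ := hM l hl
  obtain ⟨S, D, hS, hD⟩ := closedSplitting_of_measurable h1 h3
  exact ⟨S, D, by rw [hS]; exact h2, hD⟩

end

end Pool.Agent.N642.PR
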