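import Mathlib

/-!
A positive polarized partition relation at singular cardinals: the combinatorial core.
-/

set_option autoImplicit false

open Cardinal Set

namespace Pool.Agent.N642.PR

/-- a family `D` of subsets of `S` of size at least `l`, such that each member can be shrunk into one of the two
pieces of any partition, and each chain of at most `l` members has a lower bound -/
structure ClosedSplitting (l : Cardinal.{0}) {S : Type} (D : Set (Set S)) : Prop where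
  large : ∀ s ∈ D, l ≤ #s
  split : ∀ s ∈ D, ∀ t : Set S, (∃ s' ∈ D, s' ⊆ s ∩ t) ∨ (∃ s' ∈ D, s' ⊆ s \ t)
  closed : ∀ C ⊆ D, IsChain (· ⊆ ·) C → #C ≤ l → ∃ s ∈ D, ∀ t ∈ C, s ⊆ t

section card

variable {κ : Cardinal.{0}}

lemma iUnion_le {Y Z : Type} (hκ : ℵ₀ ≤ κ) (A : Z → Set Y) (hZ : #Z ≤ κ) (hA : ∀ z, #(A z) ≤ κ) :
    #(⋃ z, A z) ≤ κ := by
  calc #(⋃ z, A z) ≤ Cardinal.sum fun z => #(A z) := mk_iUnion_le_sum_mk
    _ ≤ Cardinal.sum fun _ : Z => κ := Cardinal.sum_le_sum _ _ hA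
    _ = #Z * κ := by rw [Cardinal.sum_const']
    _ ≤ κ * κ := mul_le_mul_left hZ κ
    _ = κ := mul_eq_self hκ

lemma fiber_gt {Y Z : Type} (hκ : ℵ₀ ≤ κ) {F : Set Y} (g : Y → Z) (hZ : #Z ≤ κ) (hF : κ < #F) :
    ∃ z, κ < #{y | y ∈ F ∧ g y = z} := by
  by_contra hc
  push Not at hc
  have h1 : F ⊆ ⋃ z, {y | y ∈ F ∧ g y = z} := fun y hy => mem_iUnion.mpr ⟨g y, hy, rfl⟩
  exact absurd ((mk_le_mk_of_subset h1).trans (iUnion_le hκ _ hZ hc)) (not_le.mpr hF)

lemma typical {I Y : Type} (hκ : ℵ₀ ≤ κ) (hI : #I ≤ κ) (T : I → Type) (hT : ∀ j, #(T j) ≤ κ)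
    (r : ∀ j, Y → T j) (F : Set Y) :
    #{y | y ∈ F ∧ ∃ j, #{y' | y' ∈ F ∧ r j y' = r j y} ≤ κ} ≤ κ := by
  have h1 : {y | y ∈ F ∧ ∃ j, #{y' | y' ∈ F ∧ r j y' = r j y} ≤ κ} ⊆
      ⋃ j : I, ⋃ t : T j, {y | (y ∈ F ∧ r j y = t) ∧ #{y' | y' ∈ F ∧ r j y' = t} ≤ κ} := by
    rintro y ⟨hy, j, hj⟩
    exact mem_iUnion.mpr ⟨j, mem_iUnion.mpr ⟨r j y, ⟨hy, rfl⟩, hj⟩⟩
  refine (mk_le_mk_of_subset h1).trans (iUnion_le hκ _ hI fun j => iUnion_le hκ _ (hT j) fun t => ?_)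
  by_cases h : #{y' | y' ∈ F ∧ r j y' = t} ≤ κ
  · exact (mk_le_mk_of_subset fun y hy => hy.1).trans h
  · have : {y | (y ∈ F ∧ r j y = t) ∧ #{y' | y' ∈ F ∧ r j y' = t} ≤ κ} = ∅ := by
      ext y
      simp only [mem_ofPred_eq, mem_empty_iff_false, iff_false]
      exact fun hy => h hy.2
    rw [this]
    simp

end card

section core

variable {κ : Cardinal.{0}} {I Y W : Type} {S : I → Type} (D : ∀ i, Set (Set (S i)))
  (c : ∀ i, S i → Y → Bool)

/-- the colour `e` is possible below `s` -/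
def Poss (i : I) (s : Set (S i)) (e : Bool) (y : Y) : Prop :=
  ∃ t ∈ D i, t ⊆ s ∧ ∀ x ∈ t, c i x y = e

variable {D c}

lemma poss_mono {i : I} {s s' : Set (S i)} (h : s ⊆ s') {e : Bool} {y : Y} (hp : Poss D c i s e y) :
    Poss D c i s' e y := by
  obtain ⟨t, ht, hts, htc⟩ := hp
  exact ⟨t, ht, hts.trans h, htc⟩

lemma poss_or {L : I → Cardinal.{0}} (hD : ∀ i, ClosedSplitting (L i) (D i)) {i : I} {s : Set (S i)}
    (hs : s ∈ D i) (y : Y) : Poss D c i s true y ∨ Poss D c i s false y := by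
  rcases (hD i).split s hs {x | c i x y = true} with ⟨t, ht, hts⟩ | ⟨t, ht, hts⟩
  · exact Or.inl ⟨t, ht, fun x hx => (hts hx).1, fun x hx => (hts hx).2⟩
  · refine Or.inr ⟨t, ht, fun x hx => (hts hx).1, fun x hx => ?_⟩
    have h1 := (hts hx).2
    simpa using h1

variable (D c κ)

/-- a good system -/
structure Good [Preorder I] (s : ∀ i, Set (S i)) (F : Set Y) (e : Bool) (J : Set I) : Prop where
  inD : ∀ i, s i ∈ D i
  card : κ < #F
  unb : ∀ a, ∃ i ∈ J, a ≤ i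
  good : ∀ s' : ∀ i, Set (S i), (∀ i, s' i ∈ D i) → (∀ i, s' i ⊆ s i) →
    #{y | y ∈ F ∧ ¬ ∃ b, ∀ i, b ≤ i → i ∈ J → Poss D c i (s' i) e y} ≤ κ

variable {D c κ}

lemma exists_good [LinearOrder I] [Nonempty I] (hκ : ℵ₀ ≤ κ) (h2I : (2 : Cardinal.{0}) ^ #I ≤ κ) (hY : κ < #Y)
    {L : I → Cardinal.{0}} (hD : ∀ i, ClosedSplitting (L i) (D i)) :
    ∃ s F e J, Good κ D c s F e J := by
  have h1 : ∀ i, ∃ s, s ∈ D i := by
    intro i
    obtain ⟨s, hs, _⟩ := (hD i).closed ∅ (empty_subset _) (fun x hx => absurd hx (notMem_empty x)) (by simp)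
    exact ⟨s, hs⟩
  choose s1 hs1 using h1
  by_cases hg : Good κ D c s1 univ false univ
  · exact ⟨_, _, _, _, hg⟩
  have h2 : ∃ s' : ∀ i, Set (S i), (∀ i, s' i ∈ D i) ∧
      κ < #{y : Y | ¬ ∃ b, ∀ i, b ≤ i → Poss D c i (s' i) false y} := by
    by_contra hc
    push Not at hc
    apply hg
    refine ⟨hs1, by simpa using hY, fun a => ⟨a, mem_univ _, le_rfl⟩, fun s' hs' _ => ?_⟩
    have h3 := hc s' hs'
    refine le_trans (mk_le_mk_of_subset ?_) h3
    rintro y ⟨_, hy⟩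
    simp only [mem_univ, forall_true_left] at hy
    simpa using hy
  obtain ⟨s', hs', hF⟩ := h2
  obtain ⟨J, hJ⟩ := fiber_gt hκ (fun y : Y => {i | ¬ Poss D c i (s' i) false y})
    (by rw [mk_set]; exact h2I) hF
  refine ⟨s', _, true, J, hs', hJ, ?_, ?_⟩
  · intro a
    have hne : ({y | y ∈ {y : Y | ¬ ∃ b, ∀ i, b ≤ i → Poss D c i (s' i) false y} ∧
        (fun y : Y => {i | ¬ Poss D c i (s' i) false y}) y = J}).Nonempty := by
      by_contra hc
      rw [not_nonempty_iff_eq_empty] at hc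
      rw [hc] at hJ
      simp at hJ
    obtain ⟨y, hy, hyJ⟩ := hne
    have h3 : ∃ i, a ≤ i ∧ ¬ Poss D c i (s' i) false y := by
      by_contra hc
      push Not at hc
      exact hy ⟨a, hc⟩
    obtain ⟨i, hi, hi2⟩ := h3
    refine ⟨i, ?_, hi⟩
    rw [← hyJ]
    exact hi2
  · intro s'' hs'' hle
    have h3 : {y | y ∈ {y | y ∈ {y : Y | ¬ ∃ b, ∀ i, b ≤ i → Poss D c i (s' i) false y} ∧
        (fun y : Y => {i | ¬ Poss D c i (s' i) false y}) y = J} ∧
        ¬ ∃ b, ∀ i, b ≤ i → i ∈ J → Poss D c i (s'' i) true y} = ∅ := by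
      rw [eq_empty_iff_forall_notMem]
      rintro y ⟨⟨hy, hyJ⟩, hy2⟩
      obtain ⟨a⟩ := (inferInstance : Nonempty I)
      apply hy2
      refine ⟨a, fun i _ hi => ?_⟩
      rw [← hyJ] at hi
      rcases poss_or (c := c) hD (hs'' i) y with h | h
      · exact h
      · exact absurd (poss_mono (hle i) h) hi
    rw [h3]
    simp

/-! ### the construction -/

section constr

variable (D c) (e : Bool) (J : Set I) (s0 : ∀ i, Set (S i)) (E : I → Set Y)
variable [LinearOrder I] [LinearOrder W] [WellFoundedLT W] (jw : W → I) [Nonempty Y]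

open Classical in
/-- a lower bound -/
noncomputable def LB (i : I) (C : Set (Set (S i))) : Set (S i) :=
  if h : ∃ s ∈ D i, ∀ t ∈ C, s ⊆ t then h.choose else univ

/-- the chain of the previous choices -/
def Ch (w : W) (g : ∀ w', w' < w → Y × (∀ i, Set (S i))) (i : I) : Set (Set (S i)) :=
  insert (s0 i) {t | ∃ w' : W, ∃ h : w' < w, jw w' < i ∧ t = (g w' h).2 i}

open Classical in
/-- choice of a point -/
noncomputable def pickY (P : Y → Prop) : Y := if h : ∃ y, P y then h.choose else Classical.arbitrary Y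

open Classical in
/-- choice of a set -/
noncomputable def pickS (i : I) (s : Set (S i)) (y : Y) : Set (S i) :=
  if h : i ∈ J ∧ Poss D c i s e y then h.2.choose else s

/-- one step -/
noncomputable def step (w : W) (g : ∀ w', w' < w → Y × (∀ i, Set (S i))) : Y × (∀ i, Set (S i)) :=
  (pickY (fun y => y ∈ E (jw w) ∧ (∀ w' (h : w' < w), (g w' h).1 ≠ y) ∧
    (∃ b, ∀ i, b ≤ i → i ∈ J → Poss D c i (LB D i (Ch s0 jw w g i)) e y)),
    fun i => pickS D c e J i (LB D i (Ch s0 jw w g i))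
      (pickY (fun y => y ∈ E (jw w) ∧ (∀ w' (h : w' < w), (g w' h).1 ≠ y) ∧
    (∃ b, ∀ i, b ≤ i → i ∈ J → Poss D c i (LB D i (Ch s0 jw w g i)) e y))))

/-- the construction -/
noncomputable def st : W → Y × (∀ i, Set (S i)) :=
  (wellFounded_lt (α := W)).fix (fun w g => step D c e J s0 E jw w g)

lemma st_eq (w : W) : st D c e J s0 E jw w = step D c e J s0 E jw w (fun w' _ => st D c e J s0 E jw w') := by
  unfold st
  exact WellFounded.fix_eq _ _ _

/-- the chain at `w` -/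
def CC (w : W) (i : I) : Set (Set (S i)) := Ch s0 jw w (fun w' _ => st D c e J s0 E jw w') i

/-- the lower bound at `w` -/
noncomputable def sm (w : W) (i : I) : Set (S i) := LB D i (CC D c e J s0 E jw w i)

variable {D c e J s0 E jw}

lemma LB_spec {i : I} {C : Set (Set (S i))} (h : ∃ s ∈ D i, ∀ t ∈ C, s ⊆ t) :
    LB D i C ∈ D i ∧ ∀ t ∈ C, LB D i C ⊆ t := by
  unfold LB
  rw [dif_pos h]
  exact h.choose_spec

lemma pickY_spec {P : Y → Prop} (h : ∃ y, P y) : P (pickY P) := by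
  unfold pickY
  rw [dif_pos h]
  exact h.choose_spec

lemma pickS_sub (i : I) (s : Set (S i)) (y : Y) : pickS D c e J i s y ⊆ s := by
  unfold pickS
  split_ifs with h
  · exact h.2.choose_spec.2.1
  · exact le_rfl

lemma pickS_mem (i : I) (s : Set (S i)) (y : Y) (hs : s ∈ D i) : pickS D c e J i s y ∈ D i := by
  unfold pickS
  split_ifs with h
  · exact h.2.choose_spec.1
  · exact hs

lemma pickS_col (i : I) (s : Set (S i)) (y : Y) (hi : i ∈ J) (hp : Poss D c i s e y) :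
    ∀ x ∈ pickS D c e J i s y, c i x y = e := by
  unfold pickS
  rw [dif_pos ⟨hi, hp⟩]
  exact hp.choose_spec.2.2

lemma st_snd (w : W) (i : I) : (st D c e J s0 E jw w).2 i =
    pickS D c e J i (sm D c e J s0 E jw w i) (st D c e J s0 E jw w).1 := by
  have h0 := st_eq D c e J s0 E jw w
  have h1 : (st D c e J s0 E jw w).1 =
    (step D c e J s0 E jw w (fun w' _ => st D c e J s0 E jw w')).1 := by rw [← h0]
  have h2 : (st D c e J s0 E jw w).2 i =
    (step D c e J s0 E jw w (fun w' _ => st D c e J s0 E jw w')).2 i := by rw [← h0]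
  rw [h2, h1]
  rfl

lemma st_snd_sub (w : W) (i : I) : (st D c e J s0 E jw w).2 i ⊆ sm D c e J s0 E jw w i := by
  rw [st_snd]
  exact pickS_sub _ _ _

lemma st_snd_mem (w : W) (i : I) (h1 : sm D c e J s0 E jw w i ∈ D i) :
    (st D c e J s0 E jw w).2 i ∈ D i := by
  rw [st_snd]
  exact pickS_mem _ _ _ h1

lemma st_snd_col (w : W) (i : I) (hi : i ∈ J)
    (hp : Poss D c i (sm D c e J s0 E jw w i) e (st D c e J s0 E jw w).1) :
    ∀ x ∈ (st D c e J s0 E jw w).2 i, c i x (st D c e J s0 E jw w).1 = e := by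
  rw [st_snd]
  exact pickS_col _ _ _ hi hp

lemma st_fst (w : W) (h : ∃ y, y ∈ E (jw w) ∧ (∀ w' < w, (st D c e J s0 E jw w').1 ≠ y) ∧
    (∃ b, ∀ i, b ≤ i → i ∈ J → Poss D c i (sm D c e J s0 E jw w i) e y)) :
    (st D c e J s0 E jw w).1 ∈ E (jw w) ∧ (∀ w' < w, (st D c e J s0 E jw w').1 ≠ (st D c e J s0 E jw w).1) ∧
    (∃ b, ∀ i, b ≤ i → i ∈ J → Poss D c i (sm D c e J s0 E jw w i) e (st D c e J s0 E jw w).1) := by
  have h0 := st_eq D c e J s0 E jw w
  have h1 : (st D c e J s0 E jw w).1 =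
    (step D c e J s0 E jw w (fun w' _ => st D c e J s0 E jw w')).1 := by rw [← h0]
  have h2 := pickY_spec h
  rw [h1]
  exact h2

variable {L : I → Cardinal.{0}}

/-- the chain is good -/
lemma chain_ok (hD : ∀ i, ClosedSplitting (L i) (D i)) (hs0 : ∀ i, s0 i ∈ D i)
    (hW : ∀ i, #{w | jw w < i} + 1 ≤ L i) :
    ∀ w : W, ∀ i, (sm D c e J s0 E jw w i ∈ D i) ∧ (∀ t ∈ CC D c e J s0 E jw w i, sm D c e J s0 E jw w i ⊆ t) := by
  intro w
  induction w using WellFoundedLT.induction with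
  | ind w ih =>
    intro i
    refine LB_spec ((hD i).closed _ ?_ ?_ ?_)
    · rintro t (rfl | ⟨w', hw', _, rfl⟩)
      · exact hs0 i
      · exact st_snd_mem w' i (ih w' hw' i).1
    · have key : ∀ w1 w2 : W, w1 < w → w2 < w → jw w1 < i → w1 < w2 →
          (st D c e J s0 E jw w2).2 i ⊆ (st D c e J s0 E jw w1).2 i := by
        intro w1 w2 h1 h2 hj h12
        exact (st_snd_sub w2 i).trans ((ih w2 h2 i).2 _ (mem_insert_of_mem _ ⟨w1, h12, hj, rfl⟩))
      have key0 : ∀ w1 : W, w1 < w → (st D c e J s0 E jw w1).2 i ⊆ s0 i := by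
        intro w1 h1
        exact (st_snd_sub w1 i).trans ((ih w1 h1 i).2 _ (mem_insert _ _))
      rintro t (rfl | ⟨w1, hw1, hj1, rfl⟩) t' (rfl | ⟨w2, hw2, hj2, rfl⟩) hne
      · exact Or.inl le_rfl
      · exact Or.inr (key0 w2 hw2)
      · exact Or.inl (key0 w1 hw1)
      · rcases lt_trichotomy w1 w2 with h | h | h
        · exact Or.inr (key w1 w2 hw1 hw2 hj1 h)
        · subst h
          exact Or.inl le_rfl
        · exact Or.inl (key w2 w1 hw2 hw1 hj2 h)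
    · refine le_trans ?_ (hW i)
      refine (mk_insert_le).trans ?_
      gcongr
      have h3 : {t | ∃ w' : W, ∃ _ : w' < w, jw w' < i ∧ t = (st D c e J s0 E jw w').2 i} ⊆
          (fun w' => (st D c e J s0 E jw w').2 i) '' {w | jw w < i} := by
        rintro t ⟨w', _, hj, rfl⟩
        exact ⟨w', hj, rfl⟩
      exact (mk_le_mk_of_subset h3).trans mk_image_le

/-- the result of the construction -/
theorem construct (hκ : ℵ₀ ≤ κ) (hD : ∀ i, ClosedSplitting (L i) (D i)) {s : ∀ i, Set (S i)} {F : Set Y}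
    (hg : Good κ D c s F e J) (hs0 : ∀ i, s0 i ∈ D i) (hs0s : ∀ i, s0 i ⊆ s i)
    (hW : ∀ i, #{w | jw w < i} + 1 ≤ L i) (hWκ : #W ≤ κ)
    (hE : ∀ j, κ < #(E j)) (hEF : ∀ j, E j ⊆ F) :
    ∃ (ss : ∀ i, Set (S i)) (β : W → Y) (b : W → I), (∀ i, ss i ∈ D i) ∧ (∀ i, ss i ⊆ s0 i) ∧
      Function.Injective β ∧ (∀ w, β w ∈ E (jw w)) ∧
      ∀ w i, i ∈ J → b w ≤ i → jw w < i → ∀ x ∈ ss i, c i x (β w) = e := by
  have hch := chain_ok (c := c) (e := e) (J := J) (E := E) (jw := jw) hD hs0 hW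
  have hex : ∀ w : W, ∃ y, y ∈ E (jw w) ∧ (∀ w' < w, (st D c e J s0 E jw w').1 ≠ y) ∧
      (∃ b, ∀ i, b ≤ i → i ∈ J → Poss D c i (sm D c e J s0 E jw w i) e y) := by
    intro w
    by_contra hc
    push Not at hc
    have h1 : E (jw w) ⊆ {y | y ∈ F ∧ ¬ ∃ b, ∀ i, b ≤ i → i ∈ J → Poss D c i (sm D c e J s0 E jw w i) e y} ∪
        range (fun w' => (st D c e J s0 E jw w').1) := by
      intro y hy
      by_cases hy2 : y ∈ range (fun w' => (st D c e J s0 E jw w').1)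
      · exact Or.inr hy2
      · left
        refine ⟨hEF _ hy, ?_⟩
        rintro ⟨b, hb⟩
        obtain ⟨i, hi1, hi2, hi3⟩ := hc y hy (fun w' _ h => hy2 ⟨w', h⟩) b
        exact hi3 (hb i hi1 hi2)
    have h2 : #(E (jw w)) ≤ κ := by
      refine (mk_le_mk_of_subset h1).trans ((mk_union_le _ _).trans ?_)
      have h3 := hg.good (sm D c e J s0 E jw w) (fun i => (hch w i).1)
        (fun i => ((hch w i).2 _ (mem_insert _ _)).trans (hs0s i))
      have h4 : #(range (fun w' => (st D c e J s0 E jw w').1)) ≤ κ := mk_range_le.trans hWκ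
      calc _ ≤ κ + κ := add_le_add h3 h4
        _ = κ := add_eq_self hκ
    exact absurd h2 (not_le.mpr (hE _))
  have hfst := fun w => st_fst (c := c) (e := e) (J := J) (E := E) (jw := jw) (D := D) (s0 := s0) w (hex w)
  choose b hb using fun w => (hfst w).2.2
  -- the final sets
  have hfin : ∀ i, ∃ t ∈ D i, ∀ u ∈ insert (s0 i) {t | ∃ w' : W, jw w' < i ∧ t = (st D c e J s0 E jw w').2 i},
      t ⊆ u := by
    intro i
    refine (hD i).closed _ ?_ ?_ ?_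
    · rintro t (rfl | ⟨w', _, rfl⟩)
      · exact hs0 i
      · exact st_snd_mem w' i (hch w' i).1
    · have key : ∀ w1 w2 : W, jw w1 < i → w1 < w2 →
          (st D c e J s0 E jw w2).2 i ⊆ (st D c e J s0 E jw w1).2 i := by
        intro w1 w2 hj h12
        exact (st_snd_sub w2 i).trans ((hch w2 i).2 _ (mem_insert_of_mem _ ⟨w1, h12, hj, rfl⟩))
      have key0 : ∀ w1 : W, (st D c e J s0 E jw w1).2 i ⊆ s0 i := by
        intro w1
        exact (st_snd_sub w1 i).trans ((hch w1 i).2 _ (mem_insert _ _))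
      rintro t (rfl | ⟨w1, hj1, rfl⟩) t' (rfl | ⟨w2, hj2, rfl⟩) hne
      · exact Or.inl le_rfl
      · exact Or.inr (key0 w2)
      · exact Or.inl (key0 w1)
      · rcases lt_trichotomy w1 w2 with h | h | h
        · exact Or.inr (key w1 w2 hj1 h)
        · subst h
          exact Or.inl le_rfl
        · exact Or.inl (key w2 w1 hj2 h)
    · refine le_trans ?_ (hW i)
      refine (mk_insert_le).trans ?_
      gcongr
      have h3 : {t | ∃ w' : W, jw w' < i ∧ t = (st D c e J s0 E jw w').2 i} ⊆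
          (fun w' => (st D c e J s0 E jw w').2 i) '' {w | jw w < i} := by
        rintro t ⟨w', hj, rfl⟩
        exact ⟨w', hj, rfl⟩
      exact (mk_le_mk_of_subset h3).trans mk_image_le
  choose ss hss1 hss2 using hfin
  refine ⟨ss, fun w => (st D c e J s0 E jw w).1, b, hss1, fun i => hss2 i _ (mem_insert _ _), ?_,
    fun w => (hfst w).1, ?_⟩
  · intro w w' h
    by_contra hne
    rcases lt_or_gt_of_ne hne with h1 | h1
    · exact (hfst w').2.1 w h1 h
    · exact (hfst w).2.1 w' h1 h.symm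
  · intro w i hi hbi hji x hx
    exact st_snd_col w i hi (hb w i hbi hi) x (hss2 i _ (mem_insert_of_mem _ ⟨w, hji, rfl⟩) hx)

end constr

section assemble

variable [LinearOrder I] [LinearOrder W] [WellFoundedLT W] {jw : W → I}
variable {L : I → Cardinal.{0}}

/-- disjoint intervals -/
lemma intervals [NoMaxOrder I] [Nonempty I] {J : Set I} (hJ : ∀ a, ∃ i ∈ J, a ≤ i) (a : I → I) (bs : I) :
    ∃ P : Set (I × I), (∀ p ∈ P, p.1 < p.2 ∧ p.2 ∈ J ∧ a p.1 ≤ p.2 ∧ bs ≤ p.2) ∧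
      (∀ p ∈ P, ∀ q ∈ P, p ≠ q → p.2 < q.1 ∨ q.2 < p.1) ∧ ∀ m, ∃ p ∈ P, m < p.1 := by
  obtain ⟨P, hP⟩ := zorn_subset {P : Set (I × I) |
      (∀ p ∈ P, p.1 < p.2 ∧ p.2 ∈ J ∧ a p.1 ≤ p.2 ∧ bs ≤ p.2) ∧
      (∀ p ∈ P, ∀ q ∈ P, p ≠ q → p.2 < q.1 ∨ q.2 < p.1)} (by
    intro C hC hchain
    refine ⟨⋃₀ C, ⟨?_, ?_⟩, fun s hs => subset_sUnion_of_mem hs⟩
    · rintro p ⟨s, hs, hp⟩
      exact (hC hs).1 p hp
    · rintro p ⟨s, hs, hp⟩ q ⟨t, ht, hq⟩ hne
      rcases hchain.total hs ht with h | h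
      · exact (hC ht).2 p (h hp) q hq hne
      · exact (hC hs).2 p hp q (h hq) hne)
  refine ⟨P, hP.prop.1, hP.prop.2, ?_⟩
  intro m
  by_contra hc
  push Not at hc
  -- an upper bound for all the intervals
  obtain ⟨j, hj⟩ := exists_gt m
  by_cases hbd : ∃ u, ∀ p ∈ P, p.2 ≤ u
  · obtain ⟨u, hu⟩ := hbd
    obtain ⟨j', hj'⟩ := exists_gt (max u m)
    obtain ⟨k, hk⟩ := exists_gt (max j' (max (a j') bs))
    obtain ⟨i, hiJ, hi⟩ := hJ k
    have hk1 : j' < k := (le_max_left _ _).trans_lt hk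
    have hk2 : a j' < k := ((le_max_left _ _).trans (le_max_right _ _)).trans_lt hk
    have hk3 : bs < k := ((le_max_right _ _).trans (le_max_right _ _)).trans_lt hk
    have hu' : u < j' := (le_max_left _ _).trans_lt hj'
    have hm' : m < j' := (le_max_right _ _).trans_lt hj'
    have h1 : insert (j', i) P ∈ {P : Set (I × I) |
        (∀ p ∈ P, p.1 < p.2 ∧ p.2 ∈ J ∧ a p.1 ≤ p.2 ∧ bs ≤ p.2) ∧
        (∀ p ∈ P, ∀ q ∈ P, p ≠ q → p.2 < q.1 ∨ q.2 < p.1)} := by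
      refine ⟨?_, ?_⟩
      · rintro p (rfl | hp)
        · exact ⟨hk1.trans_le hi, hiJ, (hk2.trans_le hi).le, (hk3.trans_le hi).le⟩
        · exact hP.prop.1 p hp
      · rintro p (rfl | hp) q (rfl | hq) hne
        · exact absurd rfl hne
        · exact Or.inr ((hu q hq).trans_lt hu')
        · exact Or.inl ((hu p hp).trans_lt hu')
        · exact hP.prop.2 p hp q hq hne
    have h2 := hP.le_of_ge h1 (subset_insert _ _) (mem_insert _ _)
    exact absurd (hc _ h2) (not_le.mpr hm')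
  · push Not at hbd
    -- two intervals above `m`
    obtain ⟨p, hp, hp2⟩ := hbd m
    obtain ⟨q, hq, hq2⟩ := hbd p.2
    have hne : p ≠ q := fun h => by rw [h] at hq2; exact lt_irrefl _ hq2
    rcases hP.prop.2 p hp q hq hne with h | h
    · exact absurd (hc q hq) (not_le.mpr (hp2.trans h))
    · have h3 := (hP.prop.1 p hp).1
      exact absurd (hq2.trans (h.trans h3)) (lt_irrefl _)

/-- the abstract form of the theorem -/
theorem main_abs [NoMaxOrder I] [Nonempty I] (hκ : ℵ₀ ≤ κ) (hI : #I ≤ κ) (h2I : (2 : Cardinal.{0}) ^ #I ≤ κ)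
    (hY : κ < #Y) (hD : ∀ i, ClosedSplitting (L i) (D i))
    (hT : ∀ j : I, (2 : Cardinal.{0}) ^ #(Σ i : Iio j, S i) ≤ κ)
    (hW : ∀ i, #{w | jw w < i} + 1 ≤ L i) (hWκ : #W ≤ κ) (K : I → Cardinal.{0})
    (hK : ∀ j, K j ≤ #{w | jw w = j}) (hK0 : ∀ j, ℵ₀ ≤ K j) (hK1 : ∀ j, #I < (K j).ord.cof)
    (hLu : ∀ θ < κ, ∃ a, ∀ i, a < i → θ ≤ L i) (hKu : ∀ θ < κ, ∃ a, ∀ i, a < i → θ ≤ K i) :
    ∃ (A : Set (Σ i, S i)) (B : Set Y) (e : Bool), (∀ θ < κ, θ ≤ #A) ∧ (∀ θ < κ, θ ≤ #B) ∧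
      ∀ p ∈ A, ∀ y ∈ B, c p.1 p.2 y = e := by
  obtain ⟨s, F, e, J, hg⟩ := exists_good (c := c) hκ h2I hY hD
  -- the types
  let T : I → Type := fun j => (Σ i : Iio j, S i) → Bool
  let r : ∀ j, Y → T j := fun j y p => c p.1 p.2 y
  have hTc : ∀ j, #(T j) ≤ κ := by
    intro j
    refine le_trans (le_of_eq ?_) (hT j)
    simp [T]
  have htyp := typical hκ hI T hTc r F
  have hex : ∃ y, y ∈ F ∧ (∀ j, κ < #{y' | y' ∈ F ∧ r j y' = r j y}) ∧
      ∃ b, ∀ i, b ≤ i → i ∈ J → Poss D c i (s i) e y := by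
    by_contra hc
    push Not at hc
    have h1 : F ⊆ {y | y ∈ F ∧ ∃ j, #{y' | y' ∈ F ∧ r j y' = r j y} ≤ κ} ∪
        {y | y ∈ F ∧ ¬ ∃ b, ∀ i, b ≤ i → i ∈ J → Poss D c i (s i) e y} := by
      intro y hy
      by_cases h : ∃ j, #{y' | y' ∈ F ∧ r j y' = r j y} ≤ κ
      · exact Or.inl ⟨hy, h⟩
      · right
        push Not at h
        refine ⟨hy, ?_⟩
        rintro ⟨b, hb⟩
        obtain ⟨i, h1, h2, h3⟩ := hc y hy h b
        exact h3 (hb i h1 h2)
    have h2 := (mk_le_mk_of_subset h1).trans ((mk_union_le _ _).trans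
      (add_le_add htyp (hg.good s hg.inD fun i => le_rfl)))
    rw [add_eq_self hκ] at h2
    exact absurd h2 (not_le.mpr hg.card)
  obtain ⟨y0, hy0F, hy0t, bs, hbs⟩ := hex
  have : Nonempty Y := ⟨y0⟩
  classical
  let s0 : ∀ i, Set (S i) := fun i => pickS D c e J i (s i) y0
  have hs0 : ∀ i, s0 i ∈ D i := fun i => pickS_mem i _ _ (hg.inD i)
  have hs0s : ∀ i, s0 i ⊆ s i := fun i => pickS_sub i _ _
  obtain ⟨ss, β, b, hss, hss0, hinj, hβE, hcol⟩ := construct (c := c) (jw := jw) hκ hD hg hs0 hs0s hW hWκ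
    (E := fun j => {y' | y' ∈ F ∧ r j y' = r j y0}) hy0t (fun j y hy => hy.1)
  -- uniform bounds
  have hpg : ∀ j, ∃ a, K j ≤ #{w | jw w = j ∧ b w = a} := by
    intro j
    obtain ⟨a, ha⟩ := infinite_pigeonhole_card (fun w : {w | jw w = j} => b w) (K j) (hK j) (hK0 j) (hK1 j)
    refine ⟨a, ha.trans ?_⟩
    refine Cardinal.mk_le_of_injective (f := fun x : ((fun w : {w | jw w = j} => b w) ⁻¹' {a}) =>
      (⟨x.1.1, x.1.2, x.2⟩ : {w | jw w = j ∧ b w = a})) ?_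
    intro x x' h
    have h1 := congrArg (fun z : {w | jw w = j ∧ b w = a} => (z : W)) h
    exact Subtype.ext (Subtype.ext h1)
  choose a ha using hpg
  obtain ⟨P, hP1, hP2, hP3⟩ := intervals hg.unb a bs
  refine ⟨{z | ∃ p ∈ P, p.2 = z.1 ∧ z.2 ∈ ss z.1}, {y | ∃ w, ∃ p ∈ P, jw w = p.1 ∧ b w = a p.1 ∧ β w = y}, e,
    ?_, ?_, ?_⟩
  · intro θ hθ
    obtain ⟨m, hm⟩ := hLu θ hθ
    obtain ⟨p, hp, hmp⟩ := hP3 m
    have h1 := hm p.2 (hmp.trans (hP1 p hp).1)
    refine h1.trans (((hD p.2).large _ (hss p.2)).trans ?_)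
    refine Cardinal.mk_le_of_injective (f := fun x : ss p.2 =>
      (⟨⟨p.2, x.1⟩, p, hp, rfl, x.2⟩ : {z : Σ i, S i | ∃ p ∈ P, p.2 = z.1 ∧ z.2 ∈ ss z.1})) ?_
    intro x x' h
    have h2 := congrArg (fun z : {z : Σ i, S i | ∃ p ∈ P, p.2 = z.1 ∧ z.2 ∈ ss z.1} => (z : Σ i, S i)) h
    simp only [Sigma.mk.injEq, heq_eq_eq, true_and] at h2
    exact Subtype.ext h2
  · intro θ hθ
    obtain ⟨m, hm⟩ := hKu θ hθ
    obtain ⟨p, hp, hmp⟩ := hP3 m
    refine (hm p.1 hmp).trans ((ha p.1).trans ?_)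
    refine Cardinal.mk_le_of_injective (f := fun w : {w | jw w = p.1 ∧ b w = a p.1} =>
      (⟨β w.1, w.1, p, hp, w.2.1, w.2.2, rfl⟩ : {y | ∃ w, ∃ p ∈ P, jw w = p.1 ∧ b w = a p.1 ∧ β w = y})) ?_
    intro x x' h
    have h2 := congrArg (fun z : {y | ∃ w, ∃ p ∈ P, jw w = p.1 ∧ b w = a p.1 ∧ β w = y} => (z : Y)) h
    exact Subtype.ext (hinj h2)
  · rintro ⟨i, x⟩ ⟨p, hp, rfl, hx⟩ y ⟨w, q, hq, hjw, hbw, rfl⟩
    show c p.2 x (β w) = e
    have hx' : x ∈ ss p.2 := hx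
    obtain ⟨h1, h2, h3, h4⟩ := hP1 p hp
    obtain ⟨h5, h6, h7, h8⟩ := hP1 q hq
    have hafter : q.1 < p.2 → a q.1 ≤ p.2 → c p.2 x (β w) = e := fun h9 h10 =>
      hcol w p.2 h2 (by rw [hbw]; exact h10) (by rw [hjw]; exact h9) x hx'
    by_cases hpq : p = q
    · subst hpq
      exact hafter h1 h3
    · rcases hP2 p hp q hq hpq with h | h
      · -- the set is earlier
        have h9 := (hβE w).2
        rw [hjw] at h9
        have h10 := congrFun h9 ⟨⟨p.2, h⟩, x⟩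
        have h11 : c p.2 x (β w) = c p.2 x y0 := h10
        rw [h11]
        exact pickS_col p.2 (s p.2) y0 h2 (hbs p.2 h4 h2) x (hss0 p.2 hx')
      · exact hafter (h5.trans (h.trans h1)) (h7.trans (h.trans h1).le)

end assemble

end core

end Pool.Agent.N642.PR
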