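import Pool.Agent.N642.PR.Card

/-!
A positive polarized partition relation at singular cardinals of weakly compact cofinality.
-/

set_option autoImplicit false

open Cardinal Set

namespace Pool.Agent.N642.PR

/-- the partition relation `μ → (μ)^n_2` -/
def Arrow (μ : Cardinal.{0}) (n : ℕ) : Prop :=
  ∀ (I : Type), #I = μ → ∀ f : Finset I → Bool, ∃ (H : Set I) (e : Bool), #H = μ ∧
    ∀ s : Finset I, (s : Set I) ⊆ H → s.card = n → f s = e

lemma hom3 {μ : Cardinal.{0}} (hA : Arrow μ 3) {I : Type} [LinearOrder I] (H : Set I) (hH : #H = μ)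
    (F : I → I → I → Bool) : ∃ H' ⊆ H, #H' = μ ∧ ∃ e, ∀ j ∈ H', ∀ k ∈ H', ∀ i ∈ H', j < k → k < i → F j k i = e := by
  classical
  obtain ⟨H1, e, hH1, he⟩ := hA H hH (fun s => if h : s.card = 3 then
    F (s.orderEmbOfFin h 0) (s.orderEmbOfFin h 1) (s.orderEmbOfFin h 2) else false)
  refine ⟨Subtype.val '' H1, ?_, ?_, e, ?_⟩
  · rintro _ ⟨x, _, rfl⟩
    exact x.2
  · rw [mk_image_eq Subtype.val_injective]
    exact hH1
  · rintro _ ⟨j, hj, rfl⟩ _ ⟨k, hk, rfl⟩ _ ⟨i, hi, rfl⟩ hjk hki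
    have hjk' : j < k := hjk
    have hki' : k < i := hki
    have hcard : ({j, k, i} : Finset H).card = 3 := by
      rw [Finset.card_eq_three]
      exact ⟨j, k, i, hjk'.ne, (hjk'.trans hki').ne, hki'.ne, rfl⟩
    have h1 := he {j, k, i} (by
      intro x hx
      simp only [Finset.coe_insert, Finset.coe_singleton, mem_insert_iff, mem_singleton_iff] at hx
      rcases hx with rfl | rfl | rfl
      · exact hj
      · exact hk
      · exact hi) hcard
    rw [dif_pos hcard] at h1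
    have h2 : (![j, k, i] : Fin 3 → H) = ({j, k, i} : Finset H).orderEmbOfFin hcard := by
      apply Finset.orderEmbOfFin_unique hcard
      · intro x
        fin_cases x <;> simp
      · intro x y hxy
        fin_cases x <;> fin_cases y <;> simp at hxy ⊢
        · exact hjk'
        · exact hjk'.trans hki'
        · exact hki'
    rw [← h2] at h1
    exact h1

lemma bool3 (a b g : Bool) (h1 : ¬ a = b) (h2 : ¬ b = g) : a = g := by
  cases a <;> cases b <;> cases g <;> simp_all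

lemma intervals' {I : Type} [LinearOrder I] [NoMaxOrder I] {H : Set I} (hJ : ∀ a, ∃ i ∈ H, a ≤ i) (bs : I) :
    ∃ P : Set (I × I), (∀ p ∈ P, p.1 < p.2 ∧ p.1 ∈ H ∧ p.2 ∈ H ∧ bs < p.1) ∧
      (∀ p ∈ P, ∀ q ∈ P, p ≠ q → p.2 < q.1 ∨ q.2 < p.1) ∧ ∀ m, ∃ p ∈ P, m < p.1 := by
  obtain ⟨P, hP⟩ := zorn_subset {P : Set (I × I) |
      (∀ p ∈ P, p.1 < p.2 ∧ p.1 ∈ H ∧ p.2 ∈ H ∧ bs < p.1) ∧
      (∀ p ∈ P, ∀ q ∈ P, p ≠ q → p.2 < q.1 ∨ q.2 < p.1)} (by
    intro C hC hchain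
    refine ⟨⋃₀ C, ⟨?_, ?_⟩, fun s hs => subset_sUnion_of_mem hs⟩
    · rintro p ⟨s, hs, hp⟩
      exact (hC hs).1 p hp
    · rintro p ⟨s, hs, hp⟩ q ⟨t, ht, hq⟩ hne
      rcases hchain.total hs ht with h | h
      · exact (hC ht).2 p (h hp) q hq hne
      · exact (hC hs).2 p hp q (h hq) hne)
  refine ⟨P, hP.prop.1, hP.prop.2, ?_⟩
  intro m
  by_contra hc
  push Not at hc
  by_cases hbd : ∃ u, ∀ p ∈ P, p.2 ≤ u
  · obtain ⟨u, hu⟩ := hbd
    obtain ⟨j1, hj1⟩ := exists_gt (max u (max m bs))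
    obtain ⟨j', hj'H, hj'⟩ := hJ j1
    obtain ⟨k1, hk1⟩ := exists_gt j'
    obtain ⟨i, hiH, hi⟩ := hJ k1
    have h0 : max u (max m bs) < j' := hj1.trans_le hj'
    have hu' : u < j' := (le_max_left _ _).trans_lt h0
    have hm' : m < j' := ((le_max_left _ _).trans (le_max_right _ _)).trans_lt h0
    have hb' : bs < j' := ((le_max_right _ _).trans (le_max_right _ _)).trans_lt h0
    have h1 : insert (j', i) P ∈ {P : Set (I × I) |
        (∀ p ∈ P, p.1 < p.2 ∧ p.1 ∈ H ∧ p.2 ∈ H ∧ bs < p.1) ∧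
        (∀ p ∈ P, ∀ q ∈ P, p ≠ q → p.2 < q.1 ∨ q.2 < p.1)} := by
      refine ⟨?_, ?_⟩
      · rintro p (rfl | hp)
        · exact ⟨hk1.trans_le hi, hj'H, hiH, hb'⟩
        · exact hP.prop.1 p hp
      · rintro p (rfl | hp) q (rfl | hq) hne
        · exact absurd rfl hne
        · exact Or.inr ((hu q hq).trans_lt hu')
        · exact Or.inl ((hu p hp).trans_lt hu')
        · exact hP.prop.2 p hp q hq hne
    have h2 := hP.le_of_ge h1 (subset_insert _ _) (mem_insert _ _)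
    exact absurd (hc _ h2) (not_le.mpr hm')
  · push Not at hbd
    obtain ⟨p, hp, hp2⟩ := hbd m
    obtain ⟨q, hq, hq2⟩ := hbd p.2
    have hne : p ≠ q := fun h => by rw [h] at hq2; exact lt_irrefl _ hq2
    rcases hP.prop.2 p hp q hq hne with h | h
    · exact absurd (hc q hq) (not_le.mpr (hp2.trans h))
    · have h3 := (hP.prop.1 p hp).1
      exact absurd (hq2.trans (h.trans h3)) (lt_irrefl _)

section

variable {κ : Cardinal.{0}} {I Y : Type} {S : I → Type} {c : ∀ i, S i → Y → Bool} [LinearOrder I]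

/-- assembling the pieces -/
lemma assemble (H : Set I) (hH : ∀ m, ∃ j ∈ H, m < j)
    (A : ∀ i, Set (S i)) (hA : ∀ θ < κ, ∃ a, ∀ i ∈ H, a < i → θ ≤ #(A i)) (B : I → Set Y)
    (hB : ∀ θ < κ, ∃ a, ∀ i ∈ H, a < i → θ ≤ #(B i)) (e : Bool)
    (h : ∀ i ∈ H, ∀ j ∈ H, ∀ x ∈ A i, ∀ y ∈ B j, c i x y = e) :
    ∃ (A : Set (Σ i, S i)) (B : Set Y) (e : Bool), (∀ θ < κ, θ ≤ #A) ∧ (∀ θ < κ, θ ≤ #B) ∧
      ∀ p ∈ A, ∀ y ∈ B, c p.1 p.2 y = e := by
  refine ⟨{z | z.1 ∈ H ∧ z.2 ∈ A z.1}, {y | ∃ j ∈ H, y ∈ B j}, e, ?_, ?_, ?_⟩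
  · intro θ hθ
    obtain ⟨m, hm⟩ := hA θ hθ
    obtain ⟨i, hi, hmi⟩ := hH m
    refine (hm i hi hmi).trans ?_
    refine Cardinal.mk_le_of_injective (f := fun x : A i =>
      (⟨⟨i, x.1⟩, hi, x.2⟩ : {z : Σ i, S i | z.1 ∈ H ∧ z.2 ∈ A z.1})) ?_
    intro x x' h
    have h2 := congrArg (fun z : {z : Σ i, S i | z.1 ∈ H ∧ z.2 ∈ A z.1} => (z : Σ i, S i)) h
    simp only [Sigma.mk.injEq, heq_eq_eq, true_and] at h2
    exact Subtype.ext h2
  · intro θ hθ
    obtain ⟨m, hm⟩ := hB θ hθ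
    obtain ⟨j, hj, hmj⟩ := hH m
    exact (hm j hj hmj).trans (mk_le_mk_of_subset fun y hy => ⟨j, hj, hy⟩)
  · rintro ⟨i, x⟩ ⟨hi, hx⟩ y ⟨j, hj, hy⟩
    exact h i hi j hj x hx y hy

set_option maxHeartbeats 1000000 in
/-- the abstract form of the theorem for weakly compact cofinality -/
theorem main_wc [NoMaxOrder I] [Nonempty I] (hκ : ℵ₀ ≤ κ) (hI : #I ≤ κ) (hArr : Arrow #I 3)
    (hIio : ∀ i : I, #(Iio i) < #I)
    (hY : κ < #Y) (K : I → Cardinal.{0}) (hKκ : ∀ j, K j ≤ κ) (hK0 : ∀ j, ℵ₀ ≤ K j)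
    (hK1 : ∀ j, (2 : Cardinal.{0}) ^ #I < (K j).ord.cof)
    (hT : ∀ j : I, (2 : Cardinal.{0}) ^ #(Σ i : Iic j, S i) ≤ κ)
    (hS : ∀ i, (2 : Cardinal.{0}) ^ (1 + Cardinal.sum (fun j : Iio i => K j) +
      Cardinal.sum (fun j : Iio i => K j) * Cardinal.sum (fun j : Iio i => K j)) < (#(S i)).ord.cof)
    (hS0 : ∀ i, ℵ₀ ≤ #(S i))
    (hSu : ∀ θ < κ, ∃ a, ∀ i, a < i → θ ≤ #(S i)) (hKu : ∀ θ < κ, ∃ a, ∀ i, a < i → θ ≤ K i) :
    ∃ (A : Set (Σ i, S i)) (B : Set Y) (e : Bool), (∀ θ < κ, θ ≤ #A) ∧ (∀ θ < κ, θ ≤ #B) ∧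
      ∀ p ∈ A, ∀ y ∈ B, c p.1 p.2 y = e := by
  classical
  -- the types
  let T : I → Type := fun j => (Σ i : Iic j, S i) → Bool
  let r : ∀ j, Y → T j := fun j y p => c p.1 p.2 y
  have hTc : ∀ j, #(T j) ≤ κ := by
    intro j
    refine le_trans (le_of_eq ?_) (hT j)
    simp [T]
  let E : I → Y → Set Y := fun j y => {y' | y' ∈ (univ : Set Y) ∧ r j y' = r j y}
  have hE : ∀ j y y', y' ∈ E j y → ∀ i ≤ j, ∀ x, c i x y' = c i x y := by
    intro j y y' hy' i hij x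
    exact congrFun hy'.2 ⟨⟨i, hij⟩, x⟩
  have htyp := typical hκ hI T hTc r (univ : Set Y)
  let Ty : Set Y := {y | ∀ j, κ < #(E j y)}
  have hTy : #(Tyᶜ : Set Y) ≤ κ := by
    refine le_trans (mk_le_mk_of_subset ?_) htyp
    intro y hy
    simp only [Ty, mem_compl_iff, mem_ofPred_eq, not_forall, not_lt] at hy
    exact ⟨mem_univ _, hy⟩
  have hbig : ∀ Z : Set Y, κ < #Z → κ < #(Z ∩ Ty : Set Y) := by
    intro Z hZ
    by_contra hc
    push Not at hc
    have h1 : Z ⊆ (Z ∩ Ty) ∪ Tyᶜ := fun y hy => by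
      by_cases h : y ∈ Ty
      · exact Or.inl ⟨hy, h⟩
      · exact Or.inr h
    have h2 := (mk_le_mk_of_subset h1).trans ((mk_union_le _ _).trans (add_le_add hc hTy))
    rw [add_eq_self hκ] at h2
    exact absurd h2 (not_le.mpr hZ)
  -- the centre
  have hy0 : ∃ y0, y0 ∈ Ty := by
    have h1 := hbig univ (by simpa using hY)
    by_contra hc
    push Not at hc
    have h2 : (univ ∩ Ty : Set Y) = ∅ := by
      ext y
      simp [hc y]
    rw [h2] at h1
    simp at h1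
  obtain ⟨y0, hy0⟩ := hy0
  -- the sets of the second level
  have hB : ∀ j, ∃ B : Set Y, B ⊆ E j y0 ∩ Ty ∧ #B = K j := fun j =>
    le_mk_iff_exists_subset.mp ((hKκ j).trans (hbig _ (hy0 j)).le)
  choose B hBs hBc using hB
  -- the sets of the third level
  have hC : ∀ (y : Y) (k : I), ∃ C : Set Y, y ∈ Ty → (C ⊆ E k y ∧ #C = K k) := by
    intro y k
    by_cases hy : y ∈ Ty
    · obtain ⟨C, h1, h2⟩ := le_mk_iff_exists_subset.mp ((hKκ k).trans (hy k).le)
      exact ⟨C, fun _ => ⟨h1, h2⟩⟩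
    · exact ⟨∅, fun h => absurd h hy⟩
  choose C hC using hC
  -- the points which are fixed before `i`
  let YY : I → Set Y := fun i => ({y0} ∪ ⋃ j : Iio i, B j) ∪
    ⋃ q : (Σ j : Iio i, B j), ⋃ k : Iio i, C q.2 k
  have hYY0 : ∀ i, y0 ∈ YY i := fun i => Or.inl (Or.inl rfl)
  have hYY1 : ∀ i j y, j < i → y ∈ B j → y ∈ YY i := fun i j y hj hy =>
    Or.inl (Or.inr (mem_iUnion.mpr ⟨⟨j, hj⟩, hy⟩))
  have hYY2 : ∀ i j k y z, j < i → k < i → y ∈ B j → z ∈ C y k → z ∈ YY i := fun i j k y z hj hk hy hz =>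
    Or.inr (mem_iUnion.mpr ⟨⟨⟨j, hj⟩, ⟨y, hy⟩⟩, mem_iUnion.mpr ⟨⟨k, hk⟩, hz⟩⟩)
  have hYYc : ∀ i, #(YY i) ≤ 1 + Cardinal.sum (fun j : Iio i => K j) +
      Cardinal.sum (fun j : Iio i => K j) * Cardinal.sum (fun j : Iio i => K j) := by
    intro i
    refine (mk_union_le _ _).trans (add_le_add ((mk_union_le _ _).trans (add_le_add ?_ ?_)) ?_)
    · simp
    · refine mk_iUnion_le_sum_mk.trans (Cardinal.sum_le_sum _ _ fun j => ?_)
      exact (hBc j).le
    · have h1 : #(Σ j : Iio i, B j) = Cardinal.sum (fun j : Iio i => K j) := by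
        rw [mk_sigma]
        congr 1
        funext j
        exact hBc j
      calc #(⋃ q : (Σ j : Iio i, B j), ⋃ k : Iio i, C q.2 k)
          ≤ Cardinal.sum (fun q : (Σ j : Iio i, B j) => #(⋃ k : Iio i, C q.2 k)) := mk_iUnion_le_sum_mk
        _ ≤ Cardinal.sum (fun _ : (Σ j : Iio i, B j) => Cardinal.sum (fun j : Iio i => K j)) := by
            refine Cardinal.sum_le_sum _ _ fun q => ?_
            refine mk_iUnion_le_sum_mk.trans (Cardinal.sum_le_sum _ _ fun k => ?_)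
            exact (hC q.2 k (hBs q.1 q.2.2).2).2.le
        _ = #(Σ j : Iio i, B j) * Cardinal.sum (fun j : Iio i => K j) := by rw [Cardinal.sum_const']
        _ = _ := by rw [h1]
  -- the large classes
  have hcl : ∀ i, ∃ τ : YY i → Bool, #(S i) ≤ #((fun (x : S i) (y : YY i) => c i x y) ⁻¹' {τ}) := by
    intro i
    refine infinite_pigeonhole_card _ _ le_rfl (hS0 i) (lt_of_le_of_lt ?_ (hS i))
    have h1 : #(YY i → Bool) = 2 ^ #(YY i) := by simp
    rw [h1]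
    exact power_le_power_left two_ne_zero (hYYc i)
  choose τ hτ using hcl
  let A : ∀ i, Set (S i) := fun i => (fun (x : S i) (y : YY i) => c i x y) ⁻¹' {τ i}
  let ev : Y → I → Bool := fun y i => if h : y ∈ YY i then τ i ⟨y, h⟩ else false
  have hev : ∀ i x y, x ∈ A i → y ∈ YY i → c i x y = ev y i := by
    intro i x y hx hy
    have h1 : (fun (y : YY i) => c i x y) = τ i := hx
    have h2 := congrFun h1 ⟨y, hy⟩
    simp only [ev, dif_pos hy]
    exact h2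
  -- uniformization
  have h2I : #(I → Bool) = 2 ^ #I := by simp
  have hun : ∀ (Z : Set Y) (j : I), K j ≤ #Z → ∃ b : I → Bool, K j ≤ #{y | y ∈ Z ∧ ev y = b} := by
    intro Z j hZ
    obtain ⟨b, hb⟩ := infinite_pigeonhole_card (fun y : Z => ev y) (K j) hZ (hK0 j) (by rw [h2I]; exact hK1 j)
    refine ⟨b, hb.trans ?_⟩
    refine Cardinal.mk_le_of_injective (f := fun x : ((fun y : Z => ev y) ⁻¹' {b}) =>
      (⟨x.1.1, x.1.2, x.2⟩ : {y | y ∈ Z ∧ ev y = b})) ?_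
    intro x x' h
    have h1 := congrArg (fun z : {y | y ∈ Z ∧ ev y = b} => (z : Y)) h
    exact Subtype.ext (Subtype.ext h1)
  choose b hb using fun j => hun (B j) j (hBc j).ge
  have hβ : ∀ j, ∃ y, y ∈ B j ∧ ev y = b j := by
    intro j
    by_contra hc
    have h1 : {y | y ∈ B j ∧ ev y = b j} = ∅ := by
      rw [eq_empty_iff_forall_notMem]
      intro y hy
      exact hc ⟨y, hy⟩
    have h2 := hb j
    rw [h1] at h2
    have h3 := (hK0 j).trans h2
    rw [mk_eq_zero] at h3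
    exact absurd h3 (not_le.mpr aleph0_pos)
  choose β hβB hβb using hβ
  have hβT : ∀ j, β j ∈ Ty := fun j => (hBs j (hβB j)).2
  choose g hg using fun j k => hun (C (β j) k) k (hC (β j) k (hβT j)).2.ge
  -- homogeneous sets
  obtain ⟨H1, _, hH1, ea, hea⟩ := hom3 hArr (univ : Set I) mk_univ (fun _ _ i => ev y0 i)
  obtain ⟨H2, hH21, hH2, eb, heb⟩ := hom3 hArr H1 hH1 (fun j _ i => b j i)
  obtain ⟨H3, hH32, hH3, eg, heg⟩ := hom3 hArr H2 hH2 (fun j k i => g j k i)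
  have hunb : ∀ a, ∃ i ∈ H3, a ≤ i := by
    intro a
    by_contra hc
    push Not at hc
    have h1 : H3 ⊆ Iio a := fun i hi => hc i hi
    have h2 := mk_le_mk_of_subset h1
    rw [hH3] at h2
    exact absurd h2 (not_le.mpr (hIio a))
  obtain ⟨j0, hj0, _⟩ := hunb (Classical.arbitrary I)
  obtain ⟨k1, hk1⟩ := exists_gt j0
  obtain ⟨k0, hk0, hk10⟩ := hunb k1
  have hjk0 : j0 < k0 := hk1.trans_le hk10
  obtain ⟨P, hP1, hP2, hP3⟩ := intervals' hunb k0
  have hnx : ∀ j, ∃ k, (∃ k', (j, k') ∈ P) → (j, k) ∈ P := by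
    intro j
    by_cases h : ∃ k', (j, k') ∈ P
    · obtain ⟨k, hk⟩ := h
      exact ⟨k, fun _ => hk⟩
    · exact ⟨j, fun h' => absurd h' h⟩
  choose nx hnx using hnx
  let H : Set I := {j | ∃ k', (j, k') ∈ P}
  have hHH : ∀ j ∈ H, j ∈ H3 ∧ nx j ∈ H3 ∧ j < nx j ∧ k0 < j := fun j hj =>
    ⟨(hP1 _ (hnx j hj)).2.1, (hP1 _ (hnx j hj)).2.2.1, (hP1 _ (hnx j hj)).1, (hP1 _ (hnx j hj)).2.2.2⟩
  have hHn : ∀ j ∈ H, ∀ i ∈ H, j < i → nx j < i := by
    intro j hj i hi hji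
    rcases hP2 _ (hnx j hj) _ (hnx i hi) (fun h => hji.ne (congrArg Prod.fst h)) with h | h
    · exact h
    · have h1 : nx i < j := h
      exact absurd (((hHH i hi).2.2.1.trans h1).trans hji) (lt_irrefl _)
  have hHu : ∀ m, ∃ j ∈ H, m < j := by
    intro m
    obtain ⟨p, hp, hmp⟩ := hP3 m
    exact ⟨p.1, ⟨p.2, hp⟩, hmp⟩
  have hva : ∀ i ∈ H, ev y0 i = ea := fun i hi =>
    hea j0 (hH21 (hH32 hj0)) k0 (hH21 (hH32 hk0)) i (hH21 (hH32 (hHH i hi).1)) hjk0 (hHH i hi).2.2.2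
  have hvb : ∀ j ∈ H, ∀ i ∈ H, j < i → b j i = eb := fun j hj i hi hji =>
    heb j (hH32 (hHH j hj).1) (nx j) (hH32 (hHH j hj).2.1) i (hH32 (hHH i hi).1) (hHH j hj).2.2.1
      (hHn j hj i hi hji)
  have hvb0 : ∀ i ∈ H, b j0 i = eb := fun i hi =>
    heb j0 (hH32 hj0) k0 (hH32 hk0) i (hH32 (hHH i hi).1) hjk0 (hHH i hi).2.2.2
  have hvg : ∀ j ∈ H, ∀ i ∈ H, j < i → g j (nx j) i = eg := fun j hj i hi hji =>
    heg j (hHH j hj).1 (nx j) (hHH j hj).2.1 i (hHH i hi).1 (hHH j hj).2.2.1 (hHn j hj i hi hji)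
  have hvg0 : ∀ k ∈ H, ∀ i ∈ H, k < i → g j0 k i = eg := fun k hk i hi hki =>
    heg j0 hj0 k (hHH k hk).1 i (hHH i hi).1 (hjk0.trans (hHH k hk).2.2.2) hki
  have hAu : ∀ θ < κ, ∃ a, ∀ i ∈ H, a < i → θ ≤ #(A i) := by
    intro θ hθ
    obtain ⟨a, ha⟩ := hSu θ hθ
    exact ⟨a, fun i _ hi => (ha i hi).trans (hτ i)⟩
  by_cases h1 : ea = eb
  · -- case A
    refine assemble H hHu A hAu (fun j => {y | y ∈ B j ∧ ev y = b j}) ?_ ea ?_
    · intro θ hθ
      obtain ⟨a, ha⟩ := hKu θ hθ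
      exact ⟨a, fun i _ hi => (ha i hi).trans (hb i)⟩
    · rintro i hi j hj x hx y ⟨hyB, hyb⟩
      rcases lt_or_ge j i with h | h
      · rw [hev i x y hx (hYY1 i j y h hyB), hyb, hvb j hj i hi h, h1]
      · rw [hE j y0 y (hBs j hyB).1 i h x, hev i x y0 hx (hYY0 i), hva i hi]
  by_cases h2 : eb = eg
  · -- case B
    refine assemble H hHu A hAu (fun k => {y | y ∈ C (β j0) k ∧ ev y = g j0 k}) ?_ eb ?_
    · intro θ hθ
      obtain ⟨a, ha⟩ := hKu θ hθ
      exact ⟨a, fun i _ hi => (ha i hi).trans (hg j0 i)⟩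
    · rintro i hi k hk x hx y ⟨hyC, hyg⟩
      have hj0i : j0 < i := hjk0.trans (hHH i hi).2.2.2
      rcases lt_or_ge k i with h | h
      · rw [hev i x y hx (hYY2 i j0 k (β j0) y hj0i h (hβB j0) hyC), hyg, hvg0 k hk i hi h, h2]
      · rw [hE k (β j0) y ((hC (β j0) k (hβT j0)).1 hyC) i h x,
          hev i x (β j0) hx (hYY1 i j0 _ hj0i (hβB j0)), hβb, hvb0 i hi]
  · -- case C
    have h3 : ea = eg := bool3 ea eb eg h1 h2
    refine assemble H hHu A hAu (fun j => {y | y ∈ C (β j) (nx j) ∧ ev y = g j (nx j)}) ?_ ea ?_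
    · intro θ hθ
      obtain ⟨a, ha⟩ := hKu θ hθ
      exact ⟨a, fun i hiH hi => (ha (nx i) (hi.trans (hHH i hiH).2.2.1)).trans (hg i (nx i))⟩
    · rintro i hi j hj x hx y ⟨hyC, hyg⟩
      rcases lt_or_ge j i with h | h
      · rw [hev i x y hx (hYY2 i j (nx j) (β j) y h (hHn j hj i hi h) (hβB j) hyC), hyg,
          hvg j hj i hi h, h3]
      · rw [hE (nx j) (β j) y ((hC (β j) (nx j) (hβT j)).1 hyC) i (h.trans (hHH j hj).2.2.1.le) x,
          hE j y0 (β j) (hBs j (hβB j)).1 i h x, hev i x y0 hx (hYY0 i), hva i hi]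

end

/-- singular strong limit cardinals of weakly compact cofinality -/
theorem polRel_of_arrow {κ : Cardinal.{0}} (hsl : κ.IsStrongLimit) (hsing : κ.ord.cof < κ)
    (hArr : Arrow κ.ord.cof 3) : PolRel κ := by
  intro X Y c hX hY
  have hκ : ℵ₀ ≤ κ := hsl.aleph0_le
  obtain ⟨I, _, _, hIc, hIio, f, hf, hfc⟩ := exists_index (κ := κ)
  have hcof : ℵ₀ ≤ κ.ord.cof :=
    Ordinal.aleph0_le_cof_iff.mpr (Ordinal.one_lt_cof_iff.mpr (Cardinal.isSuccLimit_ord hκ))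
  have hIlt : #I < κ := by rw [hIc]; exact hsing
  have hI0 : ℵ₀ ≤ #I := by rw [hIc]; exact hcof
  have : Nonempty I := by
    rw [← mk_ne_zero_iff]
    exact (aleph0_pos.trans_le hI0).ne'
  have hIic : ∀ i : I, #(Iic i) < κ.ord.cof := by
    intro i
    have h1 : Iic i = insert i (Iio i) := by
      ext x
      simp [le_iff_lt_or_eq, or_comm]
    rw [h1]
    exact mk_insert_le.trans_lt (add_lt_of_lt hcof (hIio i) (one_lt_aleph0.trans_le hcof))
  have : NoMaxOrder I := by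
    refine ⟨fun i => ?_⟩
    by_contra hc
    push Not at hc
    have h1 : (univ : Set I) = Iic i := by
      ext x
      simp [hc x]
    have h2 := hIic i
    rw [← h1, mk_univ, hIc] at h2
    exact lt_irrefl _ h2
  -- the sizes
  have h2κ : ∀ x < κ, (2 : Cardinal.{0}) ^ x < κ := fun x hx => hsl.isStrongPrelimit hx
  let K : I → Cardinal.{0} := fun j => Order.succ ((2 : Cardinal.{0}) ^ #I + Cardinal.sum (fun i : Iic j => f i))
  have hK : ∀ j, K j < κ := by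
    intro j
    refine hsl.isSuccLimit.succ_lt ?_
    exact add_lt_of_lt hκ (h2κ _ hIlt) (sum_lt hκ _ (hIic j) fun i => hf i)
  have hP0 : ℵ₀ ≤ (2 : Cardinal.{0}) ^ #I := hI0.trans (cantor _).le
  let s : I → Cardinal.{0} := fun i => Cardinal.sum (fun j : Iio i => K j)
  have hs : ∀ i, s i < κ := fun i => sum_lt hκ _ (hIio i) fun j => hK j
  let Q : I → Cardinal.{0} := fun i => Order.succ ((2 : Cardinal.{0}) ^ (1 + s i + s i * s i) + (s i + ℵ₀))
  have hℵ : ℵ₀ < κ := hI0.trans_lt hIlt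
  have hQ : ∀ i, Q i < κ := by
    intro i
    refine hsl.isSuccLimit.succ_lt ?_
    refine add_lt_of_lt hκ (h2κ _ ?_) (add_lt_of_lt hκ (hs i) hℵ)
    exact add_lt_of_lt hκ (add_lt_of_lt hκ (one_lt_aleph0.trans_le hκ) (hs i))
      (mul_lt_of_lt hκ (hs i) (hs i))
  let S : I → Type := fun i => (Q i).ord.ToType
  have hSQ : ∀ i, #(S i) = Q i := fun i => mk_ord_toType _
  have hQinf : ∀ i, ℵ₀ ≤ (2 : Cardinal.{0}) ^ (1 + s i + s i * s i) + (s i + ℵ₀) := fun i =>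
    (self_le_add_left _ _).trans (self_le_add_left _ _)
  -- the injection
  have hSX : #(Σ i, S i) ≤ #X := by
    rw [hX, Cardinal.mk_sigma]
    calc Cardinal.sum (fun i => #(S i)) ≤ Cardinal.sum (fun _ : I => κ) :=
          Cardinal.sum_le_sum _ _ fun i => (by rw [hSQ]; exact (hQ i).le)
      _ = #I * κ := by rw [Cardinal.sum_const']
      _ ≤ κ * κ := mul_le_mul_left hIlt.le κ
      _ = κ := mul_eq_self hκ
  obtain ⟨g⟩ := hSX
  obtain ⟨A, B, e, hA, hB, hAB⟩ := main_wc (κ := κ) (S := S) (c := fun i x y => c (g ⟨i, x⟩) y) hκ hIlt.le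
    (by rw [hIc]; exact hArr) (by rw [hIc]; exact hIio) (by rw [hY]; exact Order.lt_succ κ) K
    (fun j => (hK j).le)
    (by
      intro j
      exact hP0.trans ((self_le_add_right _ _).trans (Order.le_succ _)))
    (by
      intro j
      have h1 : ℵ₀ ≤ (2 : Cardinal.{0}) ^ #I + Cardinal.sum (fun i : Iic j => f i) :=
        hP0.trans (self_le_add_right _ _)
      exact ((self_le_add_right _ _).trans_lt (Order.lt_succ _)).trans_le (isRegular_succ h1).2)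
    (by
      intro j
      refine (h2κ _ ?_).le
      rw [mk_sigma]
      exact sum_lt hκ _ (hIic j) fun i => (by rw [hSQ]; exact hQ i))
    (by
      intro i
      rw [hSQ]
      exact ((self_le_add_right _ _).trans_lt (Order.lt_succ _)).trans_le (isRegular_succ (hQinf i)).2)
    (by
      intro i
      rw [hSQ]
      exact (hQinf i).trans (Order.le_succ _))
    (by
      intro θ hθ
      obtain ⟨a, ha⟩ := hfc θ hθ
      refine ⟨a, fun i hi => ?_⟩
      have h1 : f a ≤ K a := by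
        refine le_trans ?_ (Order.le_succ _)
        refine le_trans ?_ (self_le_add_left _ _)
        exact Cardinal.le_sum (fun i : Iic a => f i) ⟨a, le_refl a⟩
      have h2 : K a ≤ s i := Cardinal.le_sum (fun j : Iio i => K j) ⟨a, hi⟩
      rw [hSQ]
      refine ha.trans (h1.trans (h2.trans ?_))
      exact ((self_le_add_right _ _).trans (self_le_add_left _ _)).trans (Order.le_succ _))
    (by
      intro θ hθ
      obtain ⟨a, ha⟩ := hfc θ hθ
      refine ⟨a, fun i hi => ha.trans ?_⟩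
      refine le_trans ?_ (Order.le_succ _)
      refine le_trans ?_ (self_le_add_left _ _)
      exact Cardinal.le_sum (fun j : Iic i => f j) ⟨a, hi.le⟩)
  have hlim : ∀ x : Cardinal.{0}, (∀ θ < κ, θ ≤ x) → κ ≤ x := by
    intro x hx
    by_contra hc
    push Not at hc
    have h1 := hx _ (hsl.isSuccLimit.succ_lt hc)
    exact absurd h1 (not_le.mpr (Order.lt_succ x))
  obtain ⟨B', hB', hBc⟩ := le_mk_iff_exists_subset.mp (hlim _ hB)
  refine ⟨g '' A, B', e, ?_, hBc, ?_⟩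
  · apply le_antisymm
    · rw [← hX]
      exact mk_set_le _
    · rw [mk_image_eq g.injective]
      exact hlim _ hA
  · rintro x ⟨⟨i, z⟩, hz, rfl⟩ y hy
    exact hAB _ hz y (hB' hy)

end Pool.Agent.N642.PR
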